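import Pool.Agent.P.MP_02b4f7_co.Main

/-!
MP_02b4f7_co: on the hypercube, symmetric rendezvous succeeds with probability `1 - o(1)` within
`α 2^d` steps for every `α > 2` (in particular for some `α < 4`): Q1 is false.
-/

open Filter MeasureTheory Pool.Agent.P.MP_02b4f7_co

namespace Pool.Agent.Results.MP_02b4f7_co.HypercubeTwoN

theorem result (α : ℝ) (hα : 2 < α) :
    ∃ D : (d : ℕ) → ProbabilityMeasure (Schedule (SimpleGraph.hypercube d)),
      Tendsto (fun d => failProb (SimpleGraph.hypercube d) (D d).toMeasure (α * 2 ^ d))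
        atTop (nhds 0) :=
  main α hα

end Pool.Agent.Results.MP_02b4f7_co.HypercubeTwoN
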